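import Pool.Agent.Lib.MP_2c7063_co.Bridge

/-! Preparations: counting, symmetric exchange between a base of the dual and a base, and sets that
are robust with respect to the flats of a matroid. -/

namespace Pool.Agent.Lib.MP_2c7063_coL

open Set Matroid

variable {α : Type*}

/-! ### counting -/

/-- an independent set of the right size is a base -/
theorem isBase_of_indep {N : Matroid α} {B : Set α} (hB : N.IsBase B) {Y S : Finset α}
    (hS : ∀ z ∈ S, z ∉ B) (hI : N.Indep (B \ ↑Y ∪ ↑S))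
    (hc : S.card = Y.card) : N.IsBase (B \ ↑Y ∪ ↑S) := by
  obtain ⟨B', hB', h1, h2⟩ := hI.exists_isBase_subset_union_isBase hB
  have h3 : B' \ B = ↑S := by
    ext z
    constructor
    · rintro ⟨hz, hzB⟩
      rcases h2 hz with (hz' | hz') | hz'
      · exact absurd hz'.1 hzB
      · exact hz'
      · exact absurd hz' hzB
    · intro hz
      exact ⟨h1 (Or.inr hz), hS z hz⟩
  have h4 := hB'.encard_sdiff_comm hB
  rw [h3, encard_coe_eq_coe_finsetCard] at h4
  have h5 : B \ B' ⊆ ↑Y := by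
    rintro z ⟨hz, hz'⟩
    by_contra hzY
    exact hz' (h1 (Or.inl ⟨hz, hzY⟩))
  have h6 : B \ B' = ↑Y := by
    refine ((Finset.finite_toSet Y).subset h5).eq_of_subset_of_encard_le h5 ?_
    rw [← h4, hc, encard_coe_eq_coe_finsetCard]
  have h7 : B' = B \ ↑Y ∪ ↑S := by
    refine Subset.antisymm ?_ h1
    intro z hz
    by_cases hzB : z ∈ B
    · left
      refine ⟨hzB, fun hzY => ?_⟩
      rw [← h6] at hzY
      exact hzY.2 hz
    · right
      have : z ∈ B' \ B := ⟨hz, hzB⟩
      rwa [h3] at this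
  rwa [← h7]

/-- independent sets are small -/
theorem card_le_of_indep {N : Matroid α} {B : Set α} (hB : N.IsBase B) {Y S : Finset α}
    (hS : ∀ z ∈ S, z ∉ B) (hI : N.Indep (B \ ↑Y ∪ ↑S)) :
    S.card ≤ Y.card := by
  obtain ⟨B', hB', h1, h2⟩ := hI.exists_isBase_subset_union_isBase hB
  have h3 : (↑S : Set α) ⊆ B' \ B := fun z hz => ⟨h1 (Or.inr hz), hS z hz⟩
  have h4 := hB'.encard_sdiff_comm hB
  have h5 : B \ B' ⊆ ↑Y := by
    rintro z ⟨hz, hz'⟩
    by_contra hzY
    exact hz' (h1 (Or.inl ⟨hz, hzY⟩))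
  have h6 := (encard_le_encard h3).trans (h4.le.trans (encard_le_encard h5))
  rw [encard_coe_eq_coe_finsetCard, encard_coe_eq_coe_finsetCard] at h6
  exact_mod_cast h6

/-- spanning sets are large -/
theorem card_le_of_spanning {N : Matroid α} {B : Set α} (hB : N.IsBase B) {Y S : Finset α}
    (hY : (↑Y : Set α) ⊆ B) (hS : ∀ z ∈ S, z ∉ B) (hSE : (↑S : Set α) ⊆ N.E)
    (hsp : N.E ⊆ N.closure (B \ ↑Y ∪ ↑S)) : Y.card ≤ S.card := by
  have hI : N.Indep (B \ ↑Y) := hB.indep.subset sdiff_subset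
  obtain ⟨J, hJ, hIJ⟩ := hI.subset_isBasis_of_subset (X := B \ ↑Y ∪ ↑S) subset_union_left
    (union_subset hI.subset_ground hSE)
  have hJB : N.IsBase J := by
    refine hJ.indep.isBase_of_ground_subset_closure ?_
    rwa [hJ.closure_eq_closure]
  have h4 := hJB.encard_sdiff_comm hB
  have h5 : J \ B ⊆ ↑S := by
    rintro z ⟨hz, hzB⟩
    rcases hJ.subset hz with h | h
    · exact absurd h.1 hzB
    · exact h
  have h6 : (↑Y : Set α) ⊆ B \ J := by
    intro z hz
    refine ⟨hY hz, fun hzJ => ?_⟩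
    rcases hJ.subset hzJ with h | h
    · exact h.2 hz
    · exact hS z h (hY hz)
  have h7 := (encard_le_encard h6).trans (h4.ge.trans (encard_le_encard h5))
  rw [encard_coe_eq_coe_finsetCard, encard_coe_eq_coe_finsetCard] at h7
  exact_mod_cast h7

/-! ### exchange -/

/-- symmetric exchange between a base of the dual and a base -/
theorem exch {M : Matroid α} {B₁ B₂ : Set α} (h₁ : M✶.IsBase B₁) (h₂ : M.IsBase B₂) {w : α}
    (hwE : w ∈ M.E) (hw₁ : w ∉ B₁) (hw₂ : w ∉ B₂) :
    ∃ f ∈ B₁, f ∈ B₂ ∧ M✶.IsBase (insert w (B₁ \ {f})) ∧ M.IsBase (insert w (B₂ \ {f})) := by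
  have h1' := h₁.compl_isBase_of_dual
  obtain ⟨f, hf, hf', h3, h4⟩ := Pool.Agent.Lib.MP_2c7063_co.symm_exchange h1' h₂ (e := w)
    ⟨hwE, hw₁⟩ hw₂
  have hfE : f ∈ M.E := h₂.subset_ground hf
  have hfB : f ∈ B₁ := by
    by_contra hcon
    exact hf' ⟨hfE, hcon⟩
  refine ⟨f, hfB, hf, ?_, h4⟩
  have hB₁E : B₁ ⊆ M.E := h₁.subset_ground
  have hsub : insert w (B₁ \ {f}) ⊆ M.E := insert_subset hwE (sdiff_subset.trans hB₁E)
  rw [Matroid.dual_isBase_iff hsub]
  have hfw : f ≠ w := fun h => hw₁ (h ▸ hfB)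
  convert h3 using 1
  ext z
  simp only [mem_sdiff, mem_insert_iff, mem_singleton_iff, not_or, not_and, not_not]
  constructor
  · rintro ⟨hz, hzw, hz2⟩
    by_cases hzf : z = f
    · exact Or.inl hzf
    · exact Or.inr ⟨⟨hz, fun h => hzf (hz2 h)⟩, hzw⟩
  · rintro (rfl | ⟨⟨hz, hz1⟩, hzw⟩)
    · exact ⟨hfE, hfw, fun _ => rfl⟩
    · exact ⟨hz, hzw, fun h => absurd h hz1⟩

/-! ### an independent set in a given order -/

theorem indep_of_order [DecidableEq α] {N : Matroid α} {K : Set α} (hK : N.Indep K) (σ : α → ℕ) :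
    ∀ (n : ℕ) (Z : Finset α), Z.card = n → InjOn σ ↑Z → (∀ z ∈ Z, z ∈ N.E) →
      (∀ y ∈ Z, y ∉ N.closure (K ∪ ↑(Z.filter (fun z => σ z < σ y)))) → N.Indep (K ∪ ↑Z) := by
  intro n
  induction n with
  | zero =>
    intro Z hc _ _ _
    rw [Finset.card_eq_zero] at hc
    subst hc
    simpa using hK
  | succ n ih =>
    intro Z hc hinj hE h
    have hne : Z.Nonempty := by rw [← Finset.card_pos]; omega
    obtain ⟨y, hy, hmax⟩ := Z.exists_max_image σ hne
    have hfil : Z.filter (fun z => σ z < σ y) = Z.erase y := by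
      ext z
      rw [Finset.mem_filter, Finset.mem_erase]
      constructor
      · rintro ⟨hz, hlt⟩
        refine ⟨?_, hz⟩
        rintro rfl
        exact lt_irrefl _ hlt
      · rintro ⟨hne', hz⟩
        refine ⟨hz, lt_of_le_of_ne (hmax z hz) fun he => hne' (hinj hz hy he)⟩
    have hsub : Z.erase y ⊆ Z := Finset.erase_subset _ _
    have h1 := ih (Z.erase y) (by rw [Finset.card_erase_of_mem hy, hc]; rfl)
      (hinj.mono (by exact_mod_cast hsub)) (fun z hz => hE z (hsub hz)) (by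
        intro x hx hcl
        have hxZ := hsub hx
        refine h x hxZ (N.closure_subset_closure ?_ hcl)
        refine union_subset_union_right _ ?_
        intro z hz
        rw [Finset.mem_coe, Finset.mem_filter] at hz ⊢
        exact ⟨hsub hz.1, hz.2⟩)
    have h2 := h y hy
    rw [hfil] at h2
    have h3 : N.Indep (insert y (K ∪ ↑(Z.erase y))) :=
      ((h1.notMem_closure_iff (hE y hy)).1 h2).1
    have h4 : K ∪ (↑Z : Set α) = insert y (K ∪ ↑(Z.erase y)) := by
      rw [← union_insert, ← Finset.coe_insert, Finset.insert_erase hy]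
    rwa [h4]

/-! ### robust sets -/

open Classical in
/-- the elements of `R` in the closure of `K + S` -/
noncomputable def inCl (N : Matroid α) (K : Set α) (R : Finset α) (S : Set α) : Finset α :=
  R.filter (fun z => z ∈ N.closure (K ∪ S))

open Classical in
/-- the rank of `R` over `K` -/
noncomputable def rk (N : Matroid α) (K : Set α) (R : Finset α) : ℕ :=
  (R.powerset.filter (fun I : Finset α => N.Indep (K ∪ ↑I))).sup Finset.card

/-- every closure that does not contain `R` contains less than the `c`-th part of `R` -/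
def Robust (c : ℕ) (N : Matroid α) (K : Set α) (R : Finset α) : Prop :=
  ∀ S : Set α, (∃ r ∈ R, r ∉ N.closure (K ∪ S)) → c * (inCl N K R S).card < R.card

theorem mem_inCl {N : Matroid α} {K : Set α} {R : Finset α} {S : Set α} {z : α} :
    z ∈ inCl N K R S ↔ z ∈ R ∧ z ∈ N.closure (K ∪ S) := by
  classical
  simp [inCl]

theorem inCl_subset {N : Matroid α} {K : Set α} {R : Finset α} {S : Set α} :
    inCl N K R S ⊆ R := by
  classical
  exact Finset.filter_subset _ _

theorem card_le_rk {N : Matroid α} {K : Set α} {R I : Finset α} (hI : I ⊆ R)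
    (hi : N.Indep (K ∪ ↑I)) : I.card ≤ rk N K R := by
  classical
  exact Finset.le_sup (f := Finset.card) (by
    rw [Finset.mem_filter, Finset.mem_powerset]
    exact ⟨hI, hi⟩)

theorem exists_rk {N : Matroid α} {K : Set α} (hK : N.Indep K) (R : Finset α) :
    ∃ I ⊆ R, N.Indep (K ∪ ↑I) ∧ I.card = rk N K R := by
  classical
  have hne : (R.powerset.filter (fun I : Finset α => N.Indep (K ∪ ↑I))).Nonempty := by
    refine ⟨∅, ?_⟩
    rw [Finset.mem_filter, Finset.mem_powerset]
    exact ⟨Finset.empty_subset _, by simpa using hK⟩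
  obtain ⟨I, hI, he⟩ := Finset.exists_mem_eq_sup _ hne Finset.card
  rw [Finset.mem_filter, Finset.mem_powerset] at hI
  exact ⟨I, hI.1, hI.2, he.symm⟩

theorem rk_mono {N : Matroid α} {K : Set α} (hK : N.Indep K) {R R' : Finset α} (h : R' ⊆ R) :
    rk N K R' ≤ rk N K R := by
  obtain ⟨I, hI, hi, hc⟩ := exists_rk hK R'
  rw [← hc]
  exact card_le_rk (hI.trans h) hi

theorem rk_lt {N : Matroid α} {K : Set α} (hK : N.Indep K) {R : Finset α}
    (hRE : ∀ r ∈ R, r ∈ N.E) {S : Set α} {r : α} (hr : r ∈ R) (hrS : r ∉ N.closure (K ∪ S)) :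
    rk N K (inCl N K R S) < rk N K R := by
  classical
  obtain ⟨I, hI, hi, hc⟩ := exists_rk hK (inCl N K R S)
  have hsub : K ∪ (↑I : Set α) ⊆ N.closure (K ∪ S) := by
    refine union_subset ?_ fun z hz => (mem_inCl.1 (hI hz)).2
    exact N.subset_closure_of_subset' subset_union_left hK.subset_ground
  have hrI : r ∉ N.closure (K ∪ ↑I) := fun h =>
    hrS (N.closure_subset_closure_of_subset_closure hsub h)
  have hrI' : r ∉ I := fun h => hrS (mem_inCl.1 (hI h)).2
  have h1 : N.Indep (insert r (K ∪ ↑I)) := ((hi.notMem_closure_iff (hRE r hr)).1 hrI).1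
  have h2 : N.Indep (K ∪ ↑(insert r I)) := by
    rwa [Finset.coe_insert, union_insert]
  have h3 := card_le_rk (Finset.insert_subset hr (hI.trans inCl_subset)) h2
  rw [Finset.card_insert_of_notMem hrI', hc] at h3
  omega

theorem rk_le {N : Matroid α} {B : Set α} (hB : N.IsBase B) {Y R : Finset α}
    (hR : ∀ z ∈ R, z ∉ B) : rk N (B \ ↑Y) R ≤ Y.card := by
  obtain ⟨I, hI, hi, hc⟩ := exists_rk (hB.indep.subset sdiff_subset : N.Indep (B \ ↑Y)) R
  rw [← hc]
  exact card_le_of_indep hB (fun z hz => hR z (hI hz)) hi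

/-- passing to a subset with a property, at a cost that is paid by a potential -/
theorem reduce (P : Finset α → Prop) (φ : Finset α → ℕ) {c : ℕ} (hc : 1 ≤ c) {R₀ : Finset α}
    (h : ∀ R ⊆ R₀, ¬ P R → ∃ R' ⊆ R, φ R' < φ R ∧ R.card ≤ c * R'.card) :
    ∀ (n : ℕ) (R : Finset α), R ⊆ R₀ → φ R = n →
      ∃ R' ⊆ R, P R' ∧ c ^ φ R' * R.card ≤ c ^ φ R * R'.card := by
  intro n
  induction n using Nat.strong_induction_on with
  | _ n ih =>
    intro R hR hn
    by_cases hP : P R
    · exact ⟨R, Finset.Subset.refl _, hP, le_refl _⟩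
    · obtain ⟨R₁, hR₁, hlt, hcard⟩ := h R hR hP
      obtain ⟨R', hR', hP', hle⟩ := ih (φ R₁) (by omega) R₁ (hR₁.trans hR) rfl
      refine ⟨R', hR'.trans hR₁, hP', ?_⟩
      calc c ^ φ R' * R.card ≤ c ^ φ R' * (c * R₁.card) := Nat.mul_le_mul_left _ hcard
        _ = c * (c ^ φ R' * R₁.card) := by ring
        _ ≤ c * (c ^ φ R₁ * R'.card) := Nat.mul_le_mul_left _ hle
        _ = c ^ (φ R₁ + 1) * R'.card := by ring
        _ ≤ c ^ φ R * R'.card :=
            Nat.mul_le_mul_right _ (Nat.pow_le_pow_right hc (by omega))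

end Pool.Agent.Lib.MP_2c7063_coL
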