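import Pool.Agent.Lib.MP_2c7063_coL.Basic

/-! The elements of a common base in the order of their choice form a chain of common bases. -/

namespace Pool.Agent.Lib.MP_2c7063_coL

open Set Matroid

variable {α : Type*}

/-- the matroid and its dual -/
def NN (M : Matroid α) (i : Bool) : Matroid α := cond i M M✶

/-- closure at stage `j` -/
def cl (M : Matroid α) (B : Set α) (Y : ℕ → Finset α) (i : Bool) (j : ℕ) (S : Set α) : Set α :=
  (NN M i).closure (B \ ↑(Y j) ∪ S)

/-- the elements of `Z` are generic over their predecessors: `y` was chosen in `R (σ y / 2)` -/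
structure Inv (M : Matroid α) (B : Set α) (Y R : ℕ → Finset α) (σ : α → ℕ) (Z : Finset α) :
    Prop where
  inj : InjOn σ ↑Z
  mem : ∀ y ∈ Z, y ∈ R (σ y / 2)
  gen : ∀ y ∈ Z, ∀ S ⊆ Z, (∀ z ∈ S, σ z < σ y) → ∀ i, ∀ j ≤ σ y / 2, y ∈ cl M B Y i j ↑S →
    ∀ r ∈ R (σ y / 2), r ∈ cl M B Y i j ↑S
  ind : ∀ y ∈ Z, ∀ S ⊆ Z, (∀ z ∈ S, σ z < σ y) → ∀ i, y ∉ cl M B Y i (σ y / 2 + 1) ↑S

theorem Inv.mono {M : Matroid α} {B : Set α} {Y R : ℕ → Finset α} {σ : α → ℕ} {Z Z' : Finset α}
    (h : Inv M B Y R σ Z) (hZ : Z' ⊆ Z) : Inv M B Y R σ Z' where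
  inj := h.inj.mono (by exact_mod_cast hZ)
  mem := fun y hy => h.mem y (hZ hy)
  gen := fun y hy S hS => h.gen y (hZ hy) S (hS.trans hZ)
  ind := fun y hy S hS => h.ind y (hZ hy) S (hS.trans hZ)

theorem Inv.congr {M : Matroid α} {B : Set α} {Y R Y' R' : ℕ → Finset α} {σ σ' : α → ℕ}
    {Z : Finset α} {m : ℕ} (h : Inv M B Y R σ Z) (hσ : ∀ y ∈ Z, σ' y = σ y)
    (hm : ∀ y ∈ Z, σ y < 2 * m) (hY : ∀ j ≤ m, Y' j = Y j) (hR : ∀ j < m, R' j = R j) :
    Inv M B Y' R' σ' Z where
  inj := fun x hx y hy hxy => h.inj hx hy (by rw [← hσ x hx, ← hσ y hy, hxy])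
  mem := fun y hy => by
    have := hm y hy
    rw [hσ y hy, hR _ (by omega)]
    exact h.mem y hy
  gen := by
    intro y hy S hS hlt i j hj
    have hmy := hm y hy
    rw [hσ y hy] at hj hlt ⊢
    have hlt' : ∀ z ∈ S, σ z < σ y := fun z hz => by
      rw [← hσ z (hS hz)]
      exact hlt z hz
    have h1 := h.gen y hy S hS hlt' i j hj
    unfold cl at h1 ⊢
    rw [hY j (by omega), hR _ (by omega)]
    exact h1
  ind := by
    intro y hy S hS hlt i
    have hmy := hm y hy
    rw [hσ y hy] at hlt ⊢
    have hlt' : ∀ z ∈ S, σ z < σ y := fun z hz => by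
      rw [← hσ z (hS hz)]
      exact hlt z hz
    have h1 := h.ind y hy S hS hlt' i
    unfold cl at h1 ⊢
    rw [hY _ (by omega)]
    exact h1

theorem cl_mono {M : Matroid α} {B : Set α} {Y : ℕ → Finset α} {i : Bool} {j : ℕ} {S S' : Set α}
    (h : S ⊆ S') : cl M B Y i j S ⊆ cl M B Y i j S' :=
  (NN M i).closure_subset_closure (union_subset_union_right _ h)

/-- closures are smaller at later stages -/
theorem cl_stage {M : Matroid α} {B : Set α} {Y : ℕ → Finset α} {k : ℕ}
    (hY : ∀ j < k, Y j ⊆ Y (j + 1)) {i : Bool} {j l : ℕ} (hjl : j ≤ l) (hl : l ≤ k) {S : Set α} :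
    cl M B Y i l S ⊆ cl M B Y i j S := by
  induction l, hjl using Nat.le_induction with
  | base => exact Subset.refl _
  | succ l hjl ih =>
    refine Subset.trans ?_ (ih (by omega))
    refine (NN M i).closure_subset_closure (union_subset_union_left _ ?_)
    exact sdiff_subset_sdiff_right (by exact_mod_cast hY l (by omega))

theorem R_anti {R : ℕ → Finset α} {k : ℕ} (hR : ∀ j < k, R (j + 1) ⊆ R j) {j l : ℕ}
    (hjl : j ≤ l) (hl : l ≤ k) : R l ⊆ R j := by
  induction l, hjl using Nat.le_induction with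
  | base => exact Finset.Subset.refl _
  | succ l hjl ih => exact (hR l (by omega)).trans (ih (by omega))

/-- the chain -/
theorem topdown {M : Matroid α} {B : Set α} (hB : ∀ i, (NN M i).IsBase B) {Y R : ℕ → Finset α}
    {σ : α → ℕ} {k : ℕ} (hYB : ∀ j ≤ k, (↑(Y j) : Set α) ⊆ B) (hYc : ∀ j ≤ k, (Y j).card = j)
    (hYs : ∀ j < k, Y j ⊆ Y (j + 1)) (hRs : ∀ j < k, R (j + 1) ⊆ R j)
    (hRB : ∀ z ∈ R 0, z ∉ B) (hRE : ∀ z ∈ R 0, ∀ i, z ∈ (NN M i).E) :
    ∀ (n : ℕ), n ≤ k → ∀ Z : Finset α, Z.card = n → Inv M B Y R σ Z → (∀ y ∈ Z, σ y < 2 * k) →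
      (∀ i, (NN M i).IsBase (B \ ↑(Y n) ∪ ↑Z)) →
      ∃ a : ℕ → Finset α, (∀ l ≤ n, (a l).card = l) ∧ (∀ l < n, a l ⊆ a (l + 1)) ∧ a n = Z ∧
        ∀ l ≤ n, ∀ i, (NN M i).IsBase (B \ ↑(Y l) ∪ ↑(a l)) := by
  classical
  intro n
  induction n with
  | zero =>
    intro _ Z hc _ _ hbase
    refine ⟨fun _ => Z, ?_, ?_, rfl, ?_⟩
    · intro l hl
      rw [hc]
      omega
    · intro l hl
      omega
    · intro l hl i
      have : l = 0 := by omega
      subst this
      exact hbase i
  | succ n ih =>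
    intro hn Z hc hinv hσ hbase
    have hne : Z.Nonempty := by rw [← Finset.card_pos]; omega
    obtain ⟨y₀, hy₀, hmax⟩ := Z.exists_max_image σ hne
    have hZR : ∀ z ∈ Z, z ∈ R 0 := fun z hz => by
      have := hσ z hz
      exact R_anti hRs (Nat.zero_le _) (by omega) (hinv.mem z hz)
    have hsub : Z.erase y₀ ⊆ Z := Finset.erase_subset _ _
    have hcard : (Z.erase y₀).card = n := by rw [Finset.card_erase_of_mem hy₀, hc]; rfl
    have hnew : ∀ i, (NN M i).IsBase (B \ ↑(Y n) ∪ ↑(Z.erase y₀)) := by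
      intro i
      have hKi : (NN M i).Indep (B \ ↑(Y n)) := (hB i).indep.subset sdiff_subset
      refine isBase_of_indep (hB i) (fun z hz => hRB z (hZR z (hsub hz))) ?_
        (by rw [hcard, hYc n (by omega)])
      refine indep_of_order hKi σ n _ hcard (hinv.inj.mono (by exact_mod_cast hsub))
        (fun z hz => hRE z (hZR z (hsub hz)) i) ?_
      intro y hy hcl
      have hyZ := hsub hy
      have hσy := hσ y hyZ
      set S := (Z.erase y₀).filter (fun z => σ z < σ y) with hS
      have hSZ : S ⊆ Z := (Finset.filter_subset _ _).trans hsub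
      have hSlt : ∀ z ∈ S, σ z < σ y := fun z hz => (Finset.mem_filter.1 hz).2
      have hcl' : y ∈ cl M B Y i n ↑S := hcl
      by_cases hj : σ y / 2 + 1 ≤ n
      · exact hinv.ind y hyZ S hSZ hSlt i (cl_stage hYs hj (by omega) hcl')
      · have h1 := hinv.gen y hyZ S hSZ hSlt i n (by omega) hcl'
        -- everything is in the closure of `S`
        have hall : ∀ z ∈ Z, z ∈ cl M B Y i n ↑S := by
          intro z hz
          by_cases hlt : σ z < σ y
          · have hzS : z ∈ S := by
              rw [hS, Finset.mem_filter, Finset.mem_erase]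
              refine ⟨⟨?_, hz⟩, hlt⟩
              rintro rfl
              have := hmax y hyZ
              omega
            have hsubE : B \ ↑(Y n) ∪ (↑S : Set α) ⊆ (NN M i).E :=
              union_subset hKi.subset_ground (fun x hx => hRE x (hZR x (hSZ hx)) i)
            exact (NN M i).subset_closure _ hsubE (Or.inr hzS)
          · have := hσ z hz
            exact h1 z (R_anti hRs (by omega) (by omega) (hinv.mem z hz))
        have hspan : (NN M i).E ⊆ (NN M i).closure (B \ ↑(Y n) ∪ ↑S) := by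
          rw [← (hbase i).closure_eq]
          refine (NN M i).closure_subset_closure_of_subset_closure ?_
          refine union_subset ?_ hall
          refine Subset.trans ?_ ((NN M i).subset_closure_of_subset' (X := B \ ↑(Y n))
            subset_union_left hKi.subset_ground)
          exact sdiff_subset_sdiff_right (by exact_mod_cast hYs n (by omega))
        have h2 := card_le_of_spanning (hB i) (hYB n (by omega))
          (fun z hz => hRB z (hZR z (hSZ hz))) (fun x hx => hRE x (hZR x (hSZ hx)) i) hspan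
        rw [hYc n (by omega)] at h2
        have h3 : S ⊆ (Z.erase y₀).erase y := by
          intro z hz
          rw [Finset.mem_erase]
          refine ⟨?_, (Finset.mem_filter.1 hz).1⟩
          rintro rfl
          exact lt_irrefl _ (hSlt z hz)
        have h4 := Finset.card_le_card h3
        rw [Finset.card_erase_of_mem hy, hcard] at h4
        have h5 : 0 < n := by
          rw [← hcard]
          exact Finset.card_pos.2 ⟨y, hy⟩
        omega
    obtain ⟨a, ha1, ha2, ha3, ha4⟩ := ih (by omega) (Z.erase y₀) hcard (hinv.mono hsub)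
      (fun y hy => hσ y (hsub hy)) hnew
    refine ⟨fun l => if l = n + 1 then Z else a l, ?_, ?_, by simp, ?_⟩
    · intro l hl
      beta_reduce
      by_cases h : l = n + 1
      · rw [if_pos h, h, hc]
      · rw [if_neg h]
        exact ha1 l (by omega)
    · intro l hl
      beta_reduce
      by_cases h : l = n
      · rw [if_neg (show ¬ l = n + 1 by omega), if_pos (show l + 1 = n + 1 by omega), h, ha3]
        exact hsub
      · rw [if_neg (show ¬ l = n + 1 by omega), if_neg (show ¬ l + 1 = n + 1 by omega)]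
        exact ha2 l (by omega)
    · intro l hl i
      beta_reduce
      by_cases h : l = n + 1
      · rw [if_pos h, h]
        exact hbase i
      · rw [if_neg h]
        exact ha4 l (by omega) i

end Pool.Agent.Lib.MP_2c7063_coL
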