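import Pool.Agent.Lib.MP_2c7063_coL.Chron

/-! One step: the next exchanged element of `B` and the next common base. -/

namespace Pool.Agent.Lib.MP_2c7063_coL

open Set Matroid

variable {α : Type*}

section base

variable {N : Matroid α} {K T : Set α} {b : α}

/-- replacing `b` by an element outside the closure -/
theorem repl (hb : N.IsBase (insert b (K ∪ T))) (hbT : b ∉ K ∪ T) {z : α} (hz : z ∈ N.E)
    (hcl : z ∉ N.closure (K ∪ T)) : N.IsBase (insert z (K ∪ T)) := by
  have h1 := hb.exchange_base_of_notMem_closure (mem_insert _ _) (f := z)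
    (by rwa [insert_sdiff_self_of_notMem hbT]) hz
  rwa [insert_sdiff_self_of_notMem hbT] at h1

theorem b_notMem (hb : N.IsBase (insert b (K ∪ T))) (hbT : b ∉ K ∪ T) :
    b ∉ N.closure (K ∪ T) := by
  have h1 := hb.indep.notMem_closure_sdiff_of_mem (mem_insert _ _)
  rwa [insert_sdiff_self_of_notMem hbT] at h1

/-- a base is not contained in the closure -/
theorem exists_out (hb : N.IsBase (insert b (K ∪ T))) (hbT : b ∉ K ∪ T) {S : Set α}
    (hS : N.IsBase S) : ∃ t ∈ S, t ∉ N.closure (K ∪ T) := by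
  by_contra hcon
  push Not at hcon
  have h1 : N.closure S ⊆ N.closure (K ∪ T) := N.closure_subset_closure_of_subset_closure hcon
  rw [hS.closure_eq] at h1
  exact b_notMem hb hbT (h1 (hb.subset_ground (mem_insert _ _)))

/-- the crossing exchange: `s` lies outside the hyperplane, `u` inside, and `x` can be replaced
by `u` -/
theorem cross {Z : Finset α} [DecidableEq α] {x s u : α} (hx : x ∈ Z) (hxK : x ∉ K)
    (hs : N.IsBase (insert s (K ∪ ↑Z))) (hsZ : s ∉ K ∪ (↑Z : Set α))
    (hu : u ∈ N.closure (K ∪ ↑Z)) (hux : u ∉ N.closure (K ∪ ↑(Z.erase x))) :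
    N.IsBase (insert s (insert u (K ∪ ↑(Z.erase x)))) := by
  have hKZ : K ∪ (↑Z : Set α) ⊆ N.E := (subset_insert _ _).trans hs.subset_ground
  have huE : u ∈ N.E := N.closure_subset_ground _ hu
  have hsE : s ∈ N.E := hs.subset_ground (mem_insert _ _)
  have hsub : K ∪ (↑(Z.erase x) : Set α) ⊆ K ∪ ↑Z :=
    union_subset_union_right _ (by exact_mod_cast Finset.erase_subset _ _)
  have hscl : s ∉ N.closure (K ∪ ↑Z) := by
    have h1 := hs.indep.notMem_closure_sdiff_of_mem (mem_insert _ _)
    rwa [insert_sdiff_self_of_notMem hsZ] at h1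
  -- `u` is not in the closure of the rest with `s`
  have h1 : u ∉ N.closure (insert s (K ∪ ↑(Z.erase x))) := by
    intro h
    have h2 : s ∈ N.closure (insert u (K ∪ ↑(Z.erase x))) :=
      (N.closure_exchange ⟨h, hux⟩).1
    refine hscl (N.closure_subset_closure_of_subset_closure ?_ h2)
    exact insert_subset hu (hsub.trans (N.subset_closure _ hKZ))
  have hxcl : x ∈ insert s (K ∪ (↑Z : Set α)) := mem_insert_of_mem _ (Or.inr hx)
  have hsx : s ≠ x := fun h => hsZ (h ▸ Or.inr hx)
  have hset : insert s (K ∪ (↑Z : Set α)) \ {x} = insert s (K ∪ ↑(Z.erase x)) := by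
    rw [← insert_sdiff_singleton_comm hsx, union_sdiff_distrib, sdiff_singleton_eq_self hxK,
      Finset.coe_erase]
  have h3 := hs.exchange_base_of_notMem_closure hxcl (f := u) (by rwa [hset]) huE
  rw [hset, insert_comm] at h3
  exact h3

end base

theorem set_eq {B : Set α} {Y : Finset α} [DecidableEq α] {b : α} (hb : b ∈ B) (hbY : b ∉ Y)
    (T : Set α) : B \ ↑Y ∪ T = insert b (B \ ↑(insert b Y) ∪ T) := by
  ext z
  simp only [mem_insert_iff, mem_union, mem_sdiff, Finset.coe_insert, Finset.mem_coe, not_or]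
  constructor
  · rintro (⟨h1, h2⟩ | h)
    · by_cases hz : z = b
      · exact Or.inl hz
      · exact Or.inr (Or.inl ⟨h1, hz, h2⟩)
    · exact Or.inr (Or.inr h)
  · rintro (rfl | (⟨h1, h2⟩ | h))
    · exact Or.inl ⟨hb, hbY⟩
    · exact Or.inl ⟨h1, h2.2⟩
    · exact Or.inr h

theorem sdiff_eq {B : Set α} {Y : Finset α} [DecidableEq α] {b : α} {T : Set α} (hbT : b ∉ T) :
    (B \ ↑Y ∪ T) \ {b} = B \ ↑(insert b Y) ∪ T := by
  ext z
  simp only [mem_insert_iff, mem_union, mem_sdiff, Finset.coe_insert, Finset.mem_coe, not_or,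
    mem_singleton_iff]
  constructor
  · rintro ⟨⟨h1, h2⟩ | h, hz⟩
    · exact Or.inl ⟨h1, hz, h2⟩
    · exact Or.inr h
  · rintro (⟨h1, h2, h3⟩ | h)
    · exact ⟨Or.inl ⟨h1, h3⟩, h2⟩
    · exact ⟨Or.inr h, fun hz => hbT (hz ▸ h)⟩

theorem un_ins [DecidableEq α] (K : Set α) (t : α) (Z : Finset α) :
    K ∪ (↑(insert t Z) : Set α) = insert t (K ∪ ↑Z) := by
  rw [Finset.coe_insert, union_insert]

theorem core [DecidableEq α] {M : Matroid α} {B : Set α} (hB : ∀ i, (NN M i).IsBase B)
    {Y Z R G : Finset α} (hZB : ∀ z ∈ Z, z ∉ B) (hRB : ∀ z ∈ R, z ∉ B) (hRE : ∀ z ∈ R, z ∈ M.E)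
    (hZR : ∀ z ∈ Z, z ∉ R) (hbase : ∀ i, (NN M i).IsBase (B \ ↑Y ∪ ↑Z)) {c : ℕ}
    (hrob : Robust c (NN M false) (B \ ↑Y) R) {w : α} (hw : w ∈ R) (hG : G ⊆ R) (hwG : w ∉ G)
    (hGc : R.card ≤ c * G.card)
    (hgen : ∀ x ∈ Z, ∀ i, (∃ r ∈ R, r ∉ (NN M i).closure (B \ ↑Y ∪ ↑(Z.erase x))) →
      w ∉ (NN M i).closure (B \ ↑Y ∪ ↑(Z.erase x)) ∧
        ∀ t ∈ G, t ∉ (NN M i).closure (B \ ↑Y ∪ ↑(Z.erase x))) :
    ∃ b ∈ B, b ∉ Y ∧ ∃ Z' : Finset α, (∀ i, (NN M i).IsBase (B \ ↑(insert b Y) ∪ ↑Z')) ∧
      Z'.card = Z.card + 1 ∧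
      (Z' = insert w Z ∨ (∃ t ∈ G, Z' = insert t Z) ∨
        ∃ t ∈ G, ∃ x ∈ Z, Z' = insert t (insert w (Z.erase x))) := by
  have hwB := hRB w hw
  have hwZ : w ∉ Z := fun h => hZR w h hw
  have hwE := hRE w hw
  have hwEi : ∀ i, w ∈ (NN M i).E := fun i => by cases i <;> exact hwE
  have hREi : ∀ i, ∀ z ∈ R, z ∈ (NN M i).E := fun i z hz => by cases i <;> exact hRE z hz
  have hw0 : w ∉ B \ ↑Y ∪ (↑Z : Set α) := by
    rintro (h | h)
    · exact hwB h.1
    · exact hwZ h
  by_cases hD : ∃ x ∈ Z, ∀ i, ∃ r ∈ R, r ∉ (NN M i).closure (B \ ↑Y ∪ ↑(Z.erase x))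
  · obtain ⟨x, hx, hD⟩ := hD
    have hxi := fun i => hgen x hx i (hD i)
    have hxB := hZB x hx
    -- a basis of the generic elements
    have hK0 : (NN M false).Indep (B \ ↑Y) := (hB false).indep.subset sdiff_subset
    obtain ⟨J, hJG, hJ, hJc⟩ := exists_rk hK0 G
    have hJR := hJG.trans hG
    have hGcl : ∀ z ∈ G, z ∈ (NN M false).closure (B \ ↑Y ∪ ↑J) := by
      intro z hz
      by_contra hcl
      have hzJ : z ∉ J := fun h => hcl ((NN M false).subset_closure _ hJ.subset_ground (Or.inr h))
      have h1 : (NN M false).Indep (insert z (B \ ↑Y ∪ ↑J)) :=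
        ((hJ.notMem_closure_iff (hREi false z (hG hz))).1 hcl).1
      have h2 := card_le_rk (K := B \ ↑Y) (N := NN M false) (Finset.insert_subset hz hJG)
        (by rwa [Finset.coe_insert, union_insert])
      rw [Finset.card_insert_of_notMem hzJ, hJc] at h2
      omega
    have hRcl : ∀ r ∈ R, r ∈ (NN M false).closure (B \ ↑Y ∪ ↑J) := by
      by_contra hcon
      push Not at hcon
      have h1 := hrob ↑J hcon
      have h2 : G ⊆ inCl (NN M false) (B \ ↑Y) R ↑J := fun z hz =>
        mem_inCl.2 ⟨hG hz, hGcl z hz⟩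
      have h3 := Nat.mul_le_mul_left c (Finset.card_le_card h2)
      omega
    -- the base of the dual
    obtain ⟨V, hV, hJV, hVJ⟩ := hJ.exists_isBase_subset_union_isBase (hbase false)
    have hVZ : V ⊆ B \ ↑Y ∪ ↑J ∪ ↑Z := by
      intro z hz
      rcases hVJ hz with h | (h | h)
      · exact Or.inl h
      · exact Or.inl (Or.inl h)
      · exact Or.inr h
    have hwV : w ∉ V := by
      intro h
      rcases hVZ h with (h | h) | h
      · exact hwB h.1
      · exact hwG (hJG h)
      · exact hwZ h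
    obtain ⟨b, hbV, hbZ, h1, h2⟩ := exch hV (hbase true) hwE hwV hw0
    -- `b` is not in `Z`
    have hbZ' : b ∉ Z := by
      intro hbZ'
      have hbJ : b ∉ J := fun h => hZR b hbZ' (hJR h)
      have hsub : B \ ↑Y ∪ (↑J : Set α) ⊆ V \ {b} := by
        intro z hz
        refine ⟨hJV hz, ?_⟩
        rintro rfl
        rcases hz with h | h
        · exact hZB z hbZ' h.1
        · exact hbJ h
      have h3 : w ∈ M✶.closure (V \ {b}) := M✶.closure_subset_closure hsub (hRcl w hw)
      have h4 : w ∉ V \ {b} := fun h => hwV h.1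
      have h5 := h1.indep.notMem_closure_sdiff_of_mem (mem_insert _ _)
      rw [insert_sdiff_self_of_notMem h4] at h5
      exact h5 h3
    obtain ⟨hbB, hbY⟩ : b ∈ B ∧ b ∉ (↑Y : Set α) := by
      rcases hbZ with h | h
      · exact h
      · exact absurd h hbZ'
    rw [Finset.mem_coe] at hbY
    have hbZ0 : b ∉ B \ ↑(insert b Y) ∪ (↑Z : Set α) := by
      rintro (h | h)
      · exact h.2 (by simp)
      · exact hbZ' h
    have hbase' : ∀ i, (NN M i).IsBase (insert b (B \ ↑(insert b Y) ∪ ↑Z)) := fun i => by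
      rw [← set_eq hbB hbY]
      exact hbase i
    -- `w` is outside the hyperplane of the matroid
    have hQ : (NN M true).IsBase (insert w (B \ ↑(insert b Y) ∪ ↑Z)) := by
      rw [← sdiff_eq (T := (↑Z : Set α)) (b := b) (Y := Y) (fun h => hbZ' h)]
      exact h2
    have hw1 : w ∉ B \ ↑(insert b Y) ∪ (↑Z : Set α) := by
      rintro (h | h)
      · exact hwB h.1
      · exact hwZ h
    refine ⟨b, hbB, hbY, ?_⟩
    by_cases hwP : w ∈ (NN M false).closure (B \ ↑(insert b Y) ∪ ↑Z)
    · obtain ⟨t, ht, htP⟩ := exists_out (hbase' false) hbZ0 (S := insert w (V \ {b})) h1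
      have htJ : t ∈ J := by
        rcases ht with rfl | ⟨htV, htb⟩
        · exact absurd hwP htP
        · rcases hVZ htV with (h | h) | h
          · exfalso
            refine htP ((NN M false).subset_closure _ ?_ (Or.inl ⟨h.1, ?_⟩))
            · exact (subset_insert _ _).trans (hbase' false).subset_ground
            · rw [Finset.coe_insert]
              rintro (h' | h')
              · exact htb h'
              · exact h.2 h'
          · exact h
          · exfalso
            refine htP ((NN M false).subset_closure _ ?_ (Or.inr h))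
            exact (subset_insert _ _).trans (hbase' false).subset_ground
      have htG := hJG htJ
      have htR := hG htG
      have htZ : t ∉ Z := fun h => hZR t h htR
      have htB := hRB t htR
      have htbase : (NN M false).IsBase (insert t (B \ ↑(insert b Y) ∪ ↑Z)) :=
        repl (hbase' false) hbZ0 (hREi false t htR) htP
      by_cases htQ : t ∈ (NN M true).closure (B \ ↑(insert b Y) ∪ ↑Z)
      · -- crossing
        have hcl : ∀ i, ∀ z, z ∉ (NN M i).closure (B \ ↑Y ∪ ↑(Z.erase x)) →
            z ∉ (NN M i).closure (B \ ↑(insert b Y) ∪ ↑(Z.erase x)) := by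
          intro i z hz h
          refine hz ((NN M i).closure_subset_closure (union_subset_union_left _ ?_) h)
          exact sdiff_subset_sdiff_right (by
            rw [Finset.coe_insert]
            exact subset_insert _ _)
        have hxK : x ∉ B \ (↑(insert b Y) : Set α) := fun h => hxB h.1
        have ht1 : t ∉ B \ ↑(insert b Y) ∪ (↑Z : Set α) := by
          rintro (h | h)
          · exact htB h.1
          · exact htZ h
        have c1 := cross hx hxK htbase ht1 hwP (hcl false w (hxi false).1)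
        have c2 := cross hx hxK hQ hw1 htQ (hcl true t ((hxi true).2 t htG))
        have hwx : w ∉ Z.erase x := fun h => hwZ (Finset.mem_of_mem_erase h)
        have htwx : t ∉ insert w (Z.erase x) := by
          rw [Finset.mem_insert]
          rintro (h | h)
          · exact hwG (h ▸ htG)
          · exact htZ (Finset.mem_of_mem_erase h)
        refine ⟨insert t (insert w (Z.erase x)), ?_, ?_, Or.inr (Or.inr ⟨t, htG, x, hx, rfl⟩)⟩
        · intro i
          rw [un_ins, un_ins]
          cases i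
          · exact c1
          · rw [insert_comm]
            exact c2
        · rw [Finset.card_insert_of_notMem htwx, Finset.card_insert_of_notMem hwx,
            Finset.card_erase_of_mem hx]
          have := Finset.card_pos.2 ⟨x, hx⟩
          omega
      · refine ⟨insert t Z, ?_, Finset.card_insert_of_notMem htZ, Or.inr (Or.inl ⟨t, htG, rfl⟩)⟩
        intro i
        rw [un_ins]
        cases i
        · exact htbase
        · exact repl (hbase' true) hbZ0 (hREi true t htR) htQ
    · refine ⟨insert w Z, ?_, Finset.card_insert_of_notMem hwZ, Or.inl rfl⟩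
      intro i
      rw [un_ins]
      cases i
      · exact repl (hbase' false) hbZ0 (hREi false w hw) hwP
      · exact hQ
  · -- no element of `Z` can be replaced in both matroids
    push Not at hD
    obtain ⟨b, hbV, hbZ, h1, h2⟩ := exch (hbase false) (hbase true) hwE hw0 hw0
    have hbZ' : b ∉ Z := by
      intro hbZ'
      obtain ⟨i, hi⟩ := hD b hbZ'
      have hbB := hZB b hbZ'
      have hset : (B \ ↑Y ∪ (↑Z : Set α)) \ {b} = B \ ↑Y ∪ ↑(Z.erase b) := by
        rw [union_sdiff_distrib, Finset.coe_erase, sdiff_singleton_eq_self (fun h => hbB h.1)]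
      rw [hset] at h1 h2
      have h4 : w ∉ B \ ↑Y ∪ (↑(Z.erase b) : Set α) := by
        rintro (h | h)
        · exact hwB h.1
        · exact hwZ (Finset.mem_of_mem_erase h)
      have h3 := hi w hw
      cases i
      · have h5 := h1.indep.notMem_closure_sdiff_of_mem (mem_insert _ _)
        rw [insert_sdiff_self_of_notMem h4] at h5
        exact h5 h3
      · have h5 := h2.indep.notMem_closure_sdiff_of_mem (mem_insert _ _)
        rw [insert_sdiff_self_of_notMem h4] at h5
        exact h5 h3
    obtain ⟨hbB, hbY⟩ : b ∈ B ∧ b ∉ (↑Y : Set α) := by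
      rcases hbZ with h | h
      · exact h
      · exact absurd h hbZ'
    rw [Finset.mem_coe] at hbY
    refine ⟨b, hbB, hbY, insert w Z, ?_, Finset.card_insert_of_notMem hwZ, Or.inl rfl⟩
    intro i
    rw [un_ins, ← sdiff_eq (T := (↑Z : Set α)) (b := b) (Y := Y)
      (fun h => hbZ' h)]
    cases i
    · exact h1
    · exact h2

end Pool.Agent.Lib.MP_2c7063_coL
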