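import Pool.Agent.Lib.MP_2c7063_coL.Step

/-! `k` consecutive serial symmetric exchanges. -/

namespace Pool.Agent.Lib.MP_2c7063_coL

open Set Matroid

variable {α : Type*}

theorem iterate {M : Matroid α} {B : Set α} (hB : ∀ i, (NN M i).IsBase B) {R₀ : Finset α}
    (hR₀ : ∀ z ∈ R₀, z ∉ B ∧ z ∈ M.E) {k : ℕ} (hc : (4 ^ (k + 1)) ^ (k ^ 2 + 2 * k) ≤ R₀.card) :
    ∀ m ≤ k, ∀ g, g + (m ^ 2 + 2 * m) = k ^ 2 + 2 * k →
      ∃ Y R σ Z, PS M B R₀ (4 ^ (k + 1)) m g Y R σ Z := by
  intro m
  induction m with
  | zero =>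
    intro _ g hg
    have hg' : g = k ^ 2 + 2 * k := by omega
    subst hg'
    refine ⟨fun _ => ∅, fun _ => R₀, fun _ => 0, ∅, ?_, ?_, ?_, ?_, Finset.Subset.refl _, ?_, ?_,
      ?_, rfl, ⟨?_, ?_, ?_, ?_⟩, ?_, ?_⟩
    · intro j _; simp
    · intro j hj
      have : j = 0 := by omega
      subst this
      rfl
    · intro j hj; omega
    · intro j hj; omega
    · intro i j _ S hS
      exfalso
      obtain ⟨r, hr, hrS⟩ := hS
      refine hrS ((NN M i).closure_subset_closure (X := B) ?_ ?_)
      · intro z hz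
        exact Or.inl ⟨hz, by simp⟩
      · rw [(hB i).closure_eq]
        cases i <;> exact (hR₀ r hr).2
    · have h1 : phi M B (fun _ => ∅) (0 + 1) R₀ = 0 := by
        unfold phi
        have h2 := fun i => rk_le (hB i) (Y := ∅) (R := R₀) (fun z hz => (hR₀ z hz).1)
        have h3 := h2 true
        have h4 := h2 false
        rw [Finset.card_empty] at h3 h4
        rw [Finset.sum_range_one]
        beta_reduce
        omega
      rw [h1, Nat.zero_add]
      exact hc
    · simp
    · intro x hx; simp at hx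
    · intro y hy; simp at hy
    · intro y hy; simp at hy
    · intro y hy; simp at hy
    · intro y hy; simp at hy
    · intro i
      have h1 : (B \ ↑(∅ : Finset α) ∪ ↑(∅ : Finset α) : Set α) = B := by simp
      change (NN M i).IsBase (B \ ↑(∅ : Finset α) ∪ ↑(∅ : Finset α))
      rw [h1]
      exact hB i
  | succ m ih =>
    intro hm g hg
    obtain ⟨Y, R, σ, Z, h⟩ := ih (by omega) (g + (2 * m + 3)) (by
      rw [← hg]
      ring)
    exact step hB hR₀ (by omega) h

/-- a chain of finite sets as a sequence -/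
theorem exists_seq [Nonempty α] {k : ℕ} {F : ℕ → Finset α} (hc : ∀ l ≤ k, (F l).card = l)
    (hs : ∀ l < k, F l ⊆ F (l + 1)) :
    ∃ x : ℕ → α, InjOn x (Iio k) ∧ ∀ l ≤ k, x '' Iio l = ↑(F l) := by
  classical
  induction k with
  | zero =>
    obtain ⟨v⟩ := ‹Nonempty α›
    refine ⟨fun _ => v, ?_, ?_⟩
    · intro x hx; simp at hx
    · intro l hl
      have : l = 0 := by omega
      subst this
      have h1 := hc 0 (le_refl _)
      rw [Finset.card_eq_zero] at h1
      rw [h1]
      simp
  | succ k ih =>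
    obtain ⟨x, hx, hxF⟩ := ih (fun l hl => hc l (by omega)) (fun l hl => hs l (by omega))
    obtain ⟨v, hv⟩ : ((F (k + 1)) \ F k).Nonempty := by
      rw [← Finset.card_pos, Finset.card_sdiff_of_subset (hs k (by omega)), hc k (by omega),
        hc (k + 1) (le_refl _)]
      omega
    rw [Finset.mem_sdiff] at hv
    have hF : F (k + 1) = insert v (F k) := by
      symm
      refine Finset.eq_of_subset_of_card_le (Finset.insert_subset hv.1 (hs k (by omega))) ?_
      rw [Finset.card_insert_of_notMem hv.2, hc k (by omega), hc (k + 1) (le_refl _)]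
    have himg : ∀ l ≤ k, Function.update x k v '' Iio l = x '' Iio l := by
      intro l hl
      refine image_congr ?_
      intro j hj
      rw [mem_Iio] at hj
      rw [Function.update_of_ne (by omega)]
    have hval : ∀ j < k, x j ∈ F k := by
      intro j hj
      have h1 : x j ∈ x '' Iio k := ⟨j, hj, rfl⟩
      rw [hxF k (le_refl _)] at h1
      exact h1
    refine ⟨Function.update x k v, ?_, ?_⟩
    · intro i hi j hj hij
      rw [mem_Iio] at hi hj
      by_cases hik : i = k
      · by_cases hjk : j = k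
        · rw [hik, hjk]
        · rw [hik, Function.update_self, Function.update_of_ne hjk] at hij
          exact absurd (hij ▸ hval j (by omega)) hv.2
      · by_cases hjk : j = k
        · rw [hjk, Function.update_self, Function.update_of_ne hik] at hij
          exact absurd (hij ▸ hval i (by omega)) hv.2
        · rw [Function.update_of_ne hik, Function.update_of_ne hjk] at hij
          exact hx (mem_Iio.2 (by omega)) (mem_Iio.2 (by omega)) hij
    · intro l hl
      by_cases hlk : l = k + 1
      · subst hlk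
        rw [hF, Finset.coe_insert, ← hxF k (le_refl _), ← himg k (le_refl _)]
        ext z
        simp only [mem_image, mem_Iio, mem_insert_iff]
        constructor
        · rintro ⟨j, hj, rfl⟩
          by_cases hjk : j = k
          · left
            rw [hjk, Function.update_self]
          · exact Or.inr ⟨j, by omega, rfl⟩
        · rintro (rfl | ⟨j, hj, rfl⟩)
          · exact ⟨k, by omega, by rw [Function.update_self]⟩
          · exact ⟨j, by omega, rfl⟩
      · rw [himg l (by omega)]
        exact hxF l (by omega)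

/-- `k` exchanges, the elements of the first base in a prescribed large set -/
theorem main {M : Matroid α} {A B : Set α} (hA : M.IsBase A) (hB : M.IsBase B)
    (hd : Disjoint A B) (k : ℕ) {R : Set α} (hR : R ⊆ A)
    (hk : (4 ^ (k * (k + 1) * (k + 2)) : ℕ) ≤ R.encard) :
    ∃ a b : ℕ → α, InjOn a (Iio k) ∧ InjOn b (Iio k) ∧ a '' Iio k ⊆ R ∧ b '' Iio k ⊆ B ∧
      ∀ i ≤ k, M.IsBase ((A \ a '' Iio i) ∪ b '' Iio i) ∧
        M.IsBase ((B \ b '' Iio i) ∪ a '' Iio i) := by
  classical
  have hAB : ∀ z ∈ A, z ∉ B := fun z hz hz' => (disjoint_left.1 hd) hz hz'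
  have hABE : A ∪ B ⊆ M.E := union_subset hA.subset_ground hB.subset_ground
  -- a finite subset
  obtain ⟨R₁, hR₁, hc₁⟩ := exists_subset_encard_eq hk
  have hfin : R₁.Finite := finite_of_encard_eq_coe hc₁
  set R₀ := hfin.toFinset with hR₀
  have hc : R₀.card = (4 ^ (k + 1)) ^ (k ^ 2 + 2 * k) := by
    have h1 := hfin.encard_eq_coe_toFinset_card
    rw [hc₁] at h1
    have h2 : 4 ^ (k * (k + 1) * (k + 2)) = R₀.card := by exact_mod_cast h1
    rw [← h2, ← pow_mul]
    congr 1
    ring
  have hR₀R : ∀ z ∈ R₀, z ∈ R := fun z hz => hR₁ ((Finite.mem_toFinset _).1 hz)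
  have hne : Nonempty α := by
    have h1 : 0 < R₀.card := by
      rw [hc]
      positivity
    obtain ⟨v, -⟩ := Finset.card_pos.1 h1
    exact ⟨v⟩
  -- the restriction
  have hres : ∀ S ⊆ A ∪ B, (M ↾ (A ∪ B)).IsBase S ↔ M.IsBase S := by
    intro S hS
    rw [isBase_restrict_iff hABE]
    constructor
    · intro h
      refine h.indep.isBase_of_ground_subset_closure ?_
      rw [h.closure_eq_closure, ← hA.closure_eq]
      exact M.closure_subset_closure subset_union_left
    · intro h
      refine h.indep.isBasis_of_subset_of_subset_closure hS ?_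
      rw [h.closure_eq]
      exact hABE
  have hBi : ∀ i, (NN (M ↾ (A ∪ B)) i).IsBase B := by
    intro i
    cases i
    · change (M ↾ (A ∪ B))✶.IsBase B
      rw [Matroid.dual_isBase_iff (by simp)]
      have h2 : (M ↾ (A ∪ B)).E \ B = A := by
        rw [Matroid.restrict_ground_eq, union_sdiff_right]
        exact sdiff_eq_left.2 hd
      rw [h2, hres A subset_union_left]
      exact hA
    · exact (hres B subset_union_right).2 hB
  obtain ⟨Y, R', σ, Z, h⟩ := iterate hBi (R₀ := R₀)
    (fun z hz => ⟨hAB z (hR (hR₀R z hz)), Or.inl (hR (hR₀R z hz))⟩) hc.ge k (le_refl _) 0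
    (by omega)
  have hR'0 : ∀ z ∈ R' 0, z ∈ R := fun z hz => hR₀R z (h.R0 hz)
  obtain ⟨F, hF1, hF2, hF3, hF4⟩ := topdown hBi h.YB h.Yc h.Ys h.Rs
    (fun z hz => hAB z (hR (hR'0 z hz)))
    (fun z hz i => by cases i <;> exact Or.inl (hR (hR'0 z hz))) k (le_refl _) Z h.Zc h.inv
    h.lt h.base
  obtain ⟨a, ha, haF⟩ := exists_seq hF1 hF2
  obtain ⟨b, hb, hbY⟩ := exists_seq h.Yc h.Ys
  have haR : a '' Iio k ⊆ R := by
    rw [haF k (le_refl _), hF3]
    intro z hz
    have := h.lt z hz
    exact hR'0 z (R_anti h.Rs (Nat.zero_le _) (by omega) (h.inv.mem z hz))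
  have hbB : b '' Iio k ⊆ B := by
    rw [hbY k (le_refl _)]
    exact h.YB k (le_refl _)
  refine ⟨a, b, ha, hb, haR, hbB, fun i hi => ?_⟩
  have hi' : Iio i ⊆ Iio k := Iio_subset_Iio hi
  have haA : a '' Iio i ⊆ A := ((image_mono hi').trans haR).trans hR
  have hbi : b '' Iio i ⊆ B := (image_mono hi').trans hbB
  constructor
  · have h1 := hF4 i hi false
    rw [← haF i hi, ← hbY i hi] at h1
    have h2 := h1.compl_isBase_of_dual
    have h3 : (M ↾ (A ∪ B)).E \ (B \ b '' Iio i ∪ a '' Iio i) = (A \ a '' Iio i) ∪ b '' Iio i := by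
      rw [Matroid.restrict_ground_eq]
      ext z
      simp only [mem_sdiff, mem_union, not_or, not_and, not_not]
      constructor
      · rintro ⟨hz | hz, h4, h5⟩
        · exact Or.inl ⟨hz, h5⟩
        · exact Or.inr (h4 hz)
      · rintro (⟨h4, h5⟩ | hz)
        · exact ⟨Or.inl h4, fun h6 => absurd h6 (hAB z h4), h5⟩
        · exact ⟨Or.inr (hbi hz), fun _ => hz, fun h6 => hAB z (haA h6) (hbi hz)⟩
    rw [h3] at h2
    exact (hres _ (union_subset (sdiff_subset.trans subset_union_left)
      (hbi.trans subset_union_right))).1 h2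
  · have h1 := hF4 i hi true
    rw [← haF i hi, ← hbY i hi] at h1
    exact (hres _ (union_subset (sdiff_subset.trans subset_union_right)
      (haA.trans subset_union_left))).1 h1

end Pool.Agent.Lib.MP_2c7063_coL
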