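import Pool.Agent.Lib.MP_2c7063_coL.Core

/-! The inductive construction. -/

namespace Pool.Agent.Lib.MP_2c7063_coL

open Set Matroid

variable {α : Type*}

/-- the sum of all ranks of `R` -/
noncomputable def phi (M : Matroid α) (B : Set α) (Y : ℕ → Finset α) (n : ℕ) (R : Finset α) : ℕ :=
  ∑ j ∈ Finset.range n, (rk (NN M true) (B \ ↑(Y j)) R + rk (NN M false) (B \ ↑(Y j)) R)

open Classical in
/-- the generic elements of `R` over the subsets of `T` -/
noncomputable def Gen (M : Matroid α) (B : Set α) (Y : ℕ → Finset α) (m : ℕ) (R T : Finset α) :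
    Finset α :=
  R.filter (fun z => ∀ i, ∀ j ≤ m, ∀ S ⊆ T, z ∈ cl M B Y i j ↑S → ∀ r ∈ R, r ∈ cl M B Y i j ↑S)

theorem mem_Gen {M : Matroid α} {B : Set α} {Y : ℕ → Finset α} {m : ℕ} {R T : Finset α} {z : α} :
    z ∈ Gen M B Y m R T ↔ z ∈ R ∧ ∀ i, ∀ j ≤ m, ∀ S ⊆ T, z ∈ cl M B Y i j ↑S →
      ∀ r ∈ R, r ∈ cl M B Y i j ↑S := by
  classical
  simp only [Gen, Finset.mem_filter]

/-- most elements of a robust set are generic -/
theorem card_Gen {M : Matroid α} {B : Set α} {Y : ℕ → Finset α} {m c : ℕ} {R T : Finset α}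
    (hrob : ∀ i, ∀ j ≤ m, Robust c (NN M i) (B \ ↑(Y j)) R) [DecidableEq α] :
    c * (R \ Gen M B Y m R T).card ≤ 2 * ((m + 1) * 2 ^ T.card) * R.card := by
  classical
  set I : Finset (Bool × ℕ × Finset α) :=
    Finset.univ ×ˢ (Finset.range (m + 1) ×ˢ T.powerset) with hI
  have hIc : I.card = 2 * ((m + 1) * 2 ^ T.card) := by
    rw [hI, Finset.card_product, Finset.card_product, Finset.card_range, Finset.card_powerset]
    simp
  let f : Bool × ℕ × Finset α → Finset α := fun p =>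
    if (∃ r ∈ R, r ∉ cl M B Y p.1 p.2.1 ↑p.2.2) then
      inCl (NN M p.1) (B \ ↑(Y p.2.1)) R ↑p.2.2 else ∅
  have hsub : R \ Gen M B Y m R T ⊆ I.biUnion f := by
    intro z hz
    rw [Finset.mem_sdiff, mem_Gen] at hz
    obtain ⟨hzR, hz⟩ := hz
    simp only [not_and, not_forall] at hz
    obtain ⟨i, j, hj, S, hS, hzS, r, hr, hrS⟩ := hz hzR
    rw [Finset.mem_biUnion]
    refine ⟨(i, j, S), ?_, ?_⟩
    · rw [hI, Finset.mem_product, Finset.mem_product]
      exact ⟨Finset.mem_univ _, Finset.mem_range.2 (by simpa using Nat.lt_succ_of_le hj),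
        Finset.mem_powerset.2 hS⟩
    · simp only [f]
      rw [if_pos ⟨r, hr, hrS⟩]
      exact mem_inCl.2 ⟨hzR, hzS⟩
  have hf : ∀ p ∈ I, c * (f p).card ≤ R.card := by
    intro p hp
    simp only [f]
    split_ifs with h
    · rw [hI, Finset.mem_product, Finset.mem_product, Finset.mem_range] at hp
      exact (hrob p.1 p.2.1 (by omega) ↑p.2.2 h).le
    · simp
  calc c * (R \ Gen M B Y m R T).card ≤ c * (I.biUnion f).card :=
        Nat.mul_le_mul_left _ (Finset.card_le_card hsub)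
    _ ≤ c * ∑ p ∈ I, (f p).card := Nat.mul_le_mul_left _ Finset.card_biUnion_le
    _ = ∑ p ∈ I, c * (f p).card := Finset.mul_sum _ _ _
    _ ≤ ∑ _p ∈ I, R.card := Finset.sum_le_sum hf
    _ = 2 * ((m + 1) * 2 ^ T.card) * R.card := by rw [Finset.sum_const, hIc, smul_eq_mul]

/-- the state after `m` steps -/
structure PS (M : Matroid α) (B : Set α) (R₀ : Finset α) (c m g : ℕ) (Y R : ℕ → Finset α)
    (σ : α → ℕ) (Z : Finset α) : Prop where
  YB : ∀ j ≤ m, (↑(Y j) : Set α) ⊆ B
  Yc : ∀ j ≤ m, (Y j).card = j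
  Ys : ∀ j < m, Y j ⊆ Y (j + 1)
  Rs : ∀ j < m, R (j + 1) ⊆ R j
  R0 : R 0 ⊆ R₀
  rob : ∀ i, ∀ j ≤ m, Robust c (NN M i) (B \ ↑(Y j)) (R m)
  size : c ^ (phi M B Y (m + 1) (R m) + g) ≤ (R m).card
  ZR : ∀ z ∈ Z, z ∉ R m
  Zc : Z.card = m
  inv : Inv M B Y R σ Z
  lt : ∀ y ∈ Z, σ y < 2 * m
  base : ∀ i, (NN M i).IsBase (B \ ↑(Y m) ∪ ↑Z)

theorem two_mul_le_pow {k : ℕ} (hk : 1 ≤ k) : 2 * k ≤ 2 ^ k := by
  induction k, hk using Nat.le_induction with
  | base => simp
  | succ k hk ih =>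
    rw [pow_succ]
    omega

theorem size_c {k m t : ℕ} (hm : m + 1 ≤ k) (ht : t ≤ k) :
    4 * (2 * ((m + 1) * 2 ^ t)) ≤ 4 ^ (k + 1) := by
  have h1 : 2 * k ≤ 2 ^ k := two_mul_le_pow (by omega)
  have h2 : (2 : ℕ) ^ t ≤ 2 ^ k := Nat.pow_le_pow_right (by omega) ht
  have h3 : (4 : ℕ) ^ (k + 1) = 4 * (2 ^ k * 2 ^ k) := by
    rw [pow_succ, ← mul_pow]
    norm_num
    ring
  rw [h3]
  refine Nat.mul_le_mul_left _ ?_
  calc 2 * ((m + 1) * 2 ^ t) = (2 * (m + 1)) * 2 ^ t := by ring
    _ ≤ 2 ^ k * 2 ^ k := Nat.mul_le_mul (by omega) h2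

theorem step {M : Matroid α} {B : Set α} (hB : ∀ i, (NN M i).IsBase B) {R₀ : Finset α}
    (hR₀ : ∀ z ∈ R₀, z ∉ B ∧ z ∈ M.E) {k m g : ℕ} (hm : m < k) {Y R : ℕ → Finset α} {σ : α → ℕ}
    {Z : Finset α} (h : PS M B R₀ (4 ^ (k + 1)) m (g + (2 * m + 3)) Y R σ Z) :
    ∃ Y' R' σ' Z', PS M B R₀ (4 ^ (k + 1)) (m + 1) g Y' R' σ' Z' := by
  classical
  set c := 4 ^ (k + 1) with hc
  have hc1 : 4 ≤ c := by
    rw [hc]
    exact Nat.le_self_pow (by omega) 4
  have hsize := h.size
  set Rm := R m with hRm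
  have hcard : c * (c * c) ≤ Rm.card := by
    refine le_trans ?_ hsize
    calc c * (c * c) = c ^ 3 := by ring
      _ ≤ _ := Nat.pow_le_pow_right (by omega) (by omega)
  have hcard4 : 64 ≤ Rm.card := by
    refine le_trans ?_ hcard
    calc 64 = 4 * (4 * 4) := by norm_num
      _ ≤ _ := Nat.mul_le_mul hc1 (Nat.mul_le_mul hc1 hc1)
  have hRm0 : Rm ⊆ R₀ := (R_anti h.Rs (Nat.zero_le m) (le_refl m)).trans h.R0
  have hRB : ∀ z ∈ Rm, z ∉ B := fun z hz => (hR₀ z (hRm0 hz)).1
  have hRE : ∀ z ∈ Rm, z ∈ M.E := fun z hz => (hR₀ z (hRm0 hz)).2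
  have hREi : ∀ i, ∀ z ∈ Rm, z ∈ (NN M i).E := fun i z hz => by cases i <;> exact hRE z hz
  have hZ0 : ∀ z ∈ Z, z ∈ R₀ := fun z hz => by
    have := h.lt z hz
    exact h.R0 (R_anti h.Rs (Nat.zero_le _) (by omega) (h.inv.mem z hz))
  have hZB : ∀ z ∈ Z, z ∉ B := fun z hz => (hR₀ z (hZ0 z hz)).1
  -- generic elements
  have hgen : ∀ T : Finset α, T.card ≤ k → 4 * (Rm \ Gen M B Y m Rm T).card ≤ Rm.card := by
    intro T hT
    have h1 := card_Gen (T := T) h.rob
    have h2 := size_c (k := k) (m := m) (t := T.card) (by omega) hT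
    have h3 : c * (4 * (Rm \ Gen M B Y m Rm T).card) ≤ c * Rm.card := by
      calc c * (4 * (Rm \ Gen M B Y m Rm T).card) = 4 * (c * (Rm \ Gen M B Y m Rm T).card) := by
            ring
        _ ≤ 4 * (2 * ((m + 1) * 2 ^ T.card) * Rm.card) := Nat.mul_le_mul_left _ h1
        _ = 4 * (2 * ((m + 1) * 2 ^ T.card)) * Rm.card := by ring
        _ ≤ c * Rm.card := Nat.mul_le_mul_right _ h2
    exact Nat.le_of_mul_le_mul_left h3 (by omega)
  have hGsub : ∀ T, Gen M B Y m Rm T ⊆ Rm := fun T z hz => (mem_Gen.1 hz).1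
  have hGcard : ∀ T : Finset α, T.card ≤ k → 3 * Rm.card ≤ 4 * (Gen M B Y m Rm T).card := by
    intro T hT
    have h1 := hgen T hT
    rw [Finset.card_sdiff_of_subset (hGsub T)] at h1
    omega
  obtain ⟨w, hw⟩ : (Gen M B Y m Rm Z).Nonempty := by
    rw [← Finset.card_pos]
    have := hGcard Z (by rw [h.Zc]; omega)
    omega
  obtain ⟨hwR, hwgen⟩ := mem_Gen.1 hw
  have hwZ : w ∉ Z := fun hwZ => h.ZR w hwZ hwR
  set G := (Gen M B Y m Rm (insert w Z)).erase w with hG
  have hGR : G ⊆ Rm := (Finset.erase_subset _ _).trans (hGsub _)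
  have hGc : 2 ≤ G.card ∧ Rm.card ≤ c * G.card := by
    have h1 := hGcard (insert w Z) (by
      rw [Finset.card_insert_of_notMem hwZ, h.Zc]
      omega)
    have h2 := Finset.pred_card_le_card_erase (s := Gen M B Y m Rm (insert w Z)) (a := w)
    rw [← hG] at h2
    have h3 : 4 * G.card ≤ c * G.card := Nat.mul_le_mul_right _ hc1
    constructor <;> omega
  have hwG : w ∉ G := Finset.notMem_erase _ _
  have hGgen : ∀ t ∈ G, t ∈ Rm ∧ ∀ i, ∀ j ≤ m, ∀ S ⊆ insert w Z, t ∈ cl M B Y i j ↑S →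
      ∀ r ∈ Rm, r ∈ cl M B Y i j ↑S := fun t ht => mem_Gen.1 (Finset.mem_of_mem_erase ht)
  -- the geometric step
  obtain ⟨b, hbB, hbY, Z', hbase', hZ'c, hZ'⟩ := core (Z := Z) (R := Rm) (G := G) hB hZB hRB hRE
    h.ZR h.base (c := c) (h.rob false m (le_refl _)) hwR hGR hwG hGc.2 (by
      intro x hx i hex
      obtain ⟨r, hr, hrcl⟩ := hex
      have hsub : Z.erase x ⊆ Z := Finset.erase_subset _ _
      refine ⟨fun hcl => hrcl (hwgen i m (le_refl _) (Z.erase x) hsub hcl r hr), ?_⟩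
      intro t ht hcl
      exact hrcl ((hGgen t ht).2 i m (le_refl _) (Z.erase x)
        (hsub.trans (Finset.subset_insert _ _)) hcl r hr))
  -- in all cases
  obtain ⟨t, htG, hZ't⟩ : ∃ t ∈ G, Z' ⊆ insert t (insert w Z) := by
    rcases hZ' with rfl | ⟨t, ht, rfl⟩ | ⟨t, ht, x, hx, rfl⟩
    · obtain ⟨t, ht⟩ := Finset.card_pos.1 (show 0 < G.card by omega)
      exact ⟨t, ht, Finset.subset_insert _ _⟩
    · exact ⟨t, ht, Finset.insert_subset_insert _ (Finset.subset_insert _ _)⟩
    · exact ⟨t, ht, Finset.insert_subset_insert _ (Finset.insert_subset_insert _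
        (Finset.erase_subset _ _))⟩
  have htw : t ≠ w := fun he => hwG (he ▸ htG)
  have htR := hGR htG
  have htZ : t ∉ Z := fun htZ => h.ZR t htZ htR
  -- the next set
  set Y' : ℕ → Finset α := Function.update Y (m + 1) (insert b (Y m)) with hY'
  have hY'j : ∀ j ≤ m, Y' j = Y j := fun j hj => by
    rw [hY', Function.update_of_ne (by omega)]
  have hY'm : Y' (m + 1) = insert b (Y m) := by rw [hY', Function.update_self]
  have hY'B : ∀ j ≤ m + 1, (↑(Y' j) : Set α) ⊆ B := by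
    intro j hj
    by_cases hjm : j = m + 1
    · rw [hjm, hY'm, Finset.coe_insert]
      exact insert_subset hbB (h.YB m (le_refl _))
    · rw [hY'j j (by omega)]
      exact h.YB j (by omega)
  have hY'c : ∀ j ≤ m + 1, (Y' j).card = j := by
    intro j hj
    by_cases hjm : j = m + 1
    · rw [hjm, hY'm, Finset.card_insert_of_notMem hbY, h.Yc m (le_refl _)]
    · rw [hY'j j (by omega)]
      exact h.Yc j (by omega)
  have hKind : ∀ i j, (NN M i).Indep (B \ ↑(Y' j)) := fun i j => (hB i).indep.subset sdiff_subset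
  have hR1 : Rm \ Z' ⊆ Rm := Finset.sdiff_subset
  obtain ⟨R₁, hR₁, hrob₁, hle₁⟩ := reduce (c := c) (R₀ := Rm)
    (fun S => ∀ i, ∀ j ≤ m + 1, Robust c (NN M i) (B \ ↑(Y' j)) S)
    (fun S => phi M B Y' (m + 2) S) (by omega) (by
      intro S hS hP
      simp only [not_forall] at hP
      obtain ⟨i, j, hj, hP⟩ := hP
      unfold Robust at hP
      push Not at hP
      obtain ⟨T, ⟨r, hr, hrT⟩, hcT⟩ := hP
      refine ⟨inCl (NN M i) (B \ ↑(Y' j)) S T, inCl_subset, ?_, hcT⟩
      have hlt := rk_lt (hKind i j) (fun z hz => hREi i z (hS hz)) hr hrT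
      unfold phi
      refine Finset.sum_lt_sum (fun l _ => Nat.add_le_add
        (rk_mono (hKind true l) inCl_subset) (rk_mono (hKind false l) inCl_subset))
        ⟨j, Finset.mem_range.2 (by omega), ?_⟩
      cases i
      · exact Nat.add_lt_add_of_le_of_lt (rk_mono (hKind true j) inCl_subset) hlt
      · exact Nat.add_lt_add_of_lt_of_le hlt (rk_mono (hKind false j) inCl_subset))
    (phi M B Y' (m + 2) (Rm \ Z')) (Rm \ Z') hR1 rfl
  set R' : ℕ → Finset α := Function.update R (m + 1) R₁ with hR'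
  have hR'j : ∀ j ≤ m, R' j = R j := fun j hj => by
    rw [hR', Function.update_of_ne (by omega)]
  have hR'm : R' (m + 1) = R₁ := by rw [hR', Function.update_self]
  set σ' : α → ℕ := fun z => if z = w then 2 * m else if z ∈ Rm then 2 * m + 1 else σ z with hσ'
  have hσZ : ∀ y ∈ Z, σ' y = σ y := by
    intro y hy
    have h1 : y ≠ w := fun he => hwZ (he ▸ hy)
    have h2 : y ∉ Rm := h.ZR y hy
    simp only [hσ', if_neg h1, if_neg h2]
  have hσw : σ' w = 2 * m := by simp only [hσ', if_pos rfl]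
  have hσt : σ' t = 2 * m + 1 := by simp only [hσ', if_neg htw, if_pos htR]
  have hcase : ∀ y ∈ Z', y = t ∨ y = w ∨ y ∈ Z := by
    intro y hy
    have h1 := hZ't hy
    rw [Finset.mem_insert, Finset.mem_insert] at h1
    exact h1
  have hZ'0 : ∀ y ∈ Z', y ∈ R₀ := by
    intro y hy
    rcases hcase y hy with rfl | rfl | h1
    · exact hRm0 htR
    · exact hRm0 hwR
    · exact hZ0 y h1
  have hold := h.inv.congr (Y' := Y') (R' := R') (σ' := σ') (m := m) hσZ h.lt hY'j
    (fun j hj => hR'j j hj.le)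
  -- independence at the new stage
  have hindep : ∀ y ∈ Z', ∀ S ⊆ Z', y ∉ S → ∀ i, y ∉ cl M B Y' i (m + 1) ↑S := by
    intro y hy S hS hyS i
    unfold cl
    rw [hY'm]
    have h1 := (hbase' i).indep.notMem_closure_sdiff_of_mem (e := y) (Or.inr hy)
    refine fun h2 => h1 ((NN M i).closure_subset_closure ?_ h2)
    rintro z (hz | hz)
    · refine ⟨Or.inl hz, ?_⟩
      rintro rfl
      exact (hR₀ z (hZ'0 z hy)).1 hz.1
    · refine ⟨Or.inr (hS hz), ?_⟩
      rintro rfl
      exact hyS hz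
  have hS_old : ∀ S ⊆ Z', (∀ z ∈ S, σ' z < 2 * m) → S ⊆ Z := by
    intro S hS hlt z hz
    rcases hcase z (hS hz) with rfl | rfl | h1
    · have := hlt z hz
      omega
    · have := hlt z hz
      omega
    · exact h1
  have hS_old' : ∀ S ⊆ Z', (∀ z ∈ S, σ' z < 2 * m + 1) → S ⊆ insert w Z := by
    intro S hS hlt z hz
    rcases hcase z (hS hz) with rfl | rfl | h1
    · have := hlt z hz
      omega
    · exact Finset.mem_insert_self _ _
    · exact Finset.mem_insert_of_mem h1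
  have hdivw : 2 * m / 2 = m := by omega
  have hdivt : (2 * m + 1) / 2 = m := by omega
  have hinv' : Inv M B Y' R' σ' Z' := by
    refine ⟨?_, ?_, ?_, ?_⟩
    · intro x hx y hy hxy
      have hold1 : ∀ z ∈ Z, σ' z < 2 * m := fun z hz => by
        rw [hσZ z hz]
        exact h.lt z hz
      rcases hcase x hx with rfl | rfl | hx1 <;> rcases hcase y hy with rfl | rfl | hy1
      · rfl
      · omega
      · have := hold1 y hy1
        omega
      · omega
      · rfl
      · have := hold1 y hy1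
        omega
      · have := hold1 x hx1
        omega
      · have := hold1 x hx1
        omega
      · exact hold.inj hx1 hy1 hxy
    · intro y hy
      rcases hcase y hy with rfl | rfl | h1
      · rw [hσt, hdivt, hR'j m (le_refl _)]
        exact htR
      · rw [hσw, hdivw, hR'j m (le_refl _)]
        exact hwR
      · exact hold.mem y h1
    · intro y hy S hS hlt i j hj hyS
      rcases hcase y hy with rfl | rfl | h1
      · rw [hσt, hdivt] at hj ⊢
        rw [hσt] at hlt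
        rw [hR'j m (le_refl _)]
        unfold cl at hyS ⊢
        rw [hY'j j hj] at hyS ⊢
        exact (hGgen y htG).2 i j hj S (hS_old' S hS hlt) hyS
      · rw [hσw, hdivw] at hj ⊢
        rw [hσw] at hlt
        rw [hR'j m (le_refl _)]
        unfold cl at hyS ⊢
        rw [hY'j j hj] at hyS ⊢
        exact hwgen i j hj S (hS_old S hS hlt) hyS
      · have h2 : σ' y < 2 * m := by
          rw [hσZ y h1]
          exact h.lt y h1
        exact hold.gen y h1 S (hS_old S hS (fun z hz => (hlt z hz).trans h2)) hlt i j hj hyS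
    · intro y hy S hS hlt i
      have hyS : y ∉ S := fun h1 => lt_irrefl _ (hlt y h1)
      rcases hcase y hy with rfl | rfl | h1
      · rw [hσt, hdivt]
        exact hindep y hy S hS hyS i
      · rw [hσw, hdivw]
        exact hindep y hy S hS hyS i
      · have h2 : σ' y < 2 * m := by
          rw [hσZ y h1]
          exact h.lt y h1
        exact hold.ind y h1 S (hS_old S hS (fun z hz => (hlt z hz).trans h2)) hlt i
  -- the size of the next set
  have hphi : phi M B Y' (m + 2) (Rm \ Z') ≤ phi M B Y (m + 1) Rm + (2 * m + 2) := by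
    unfold phi
    rw [Finset.sum_range_succ (fun j => rk (NN M true) (B \ ↑(Y' j)) (Rm \ Z') +
      rk (NN M false) (B \ ↑(Y' j)) (Rm \ Z')) (m + 1)]
    refine Nat.add_le_add ?_ ?_
    · refine Finset.sum_le_sum ?_
      intro j hj
      have hjm : j ≤ m := by
        have := Finset.mem_range.1 hj
        omega
      have hKt := hKind true j
      have hKf := hKind false j
      rw [hY'j j hjm] at hKt hKf ⊢
      exact Nat.add_le_add (rk_mono hKt hR1) (rk_mono hKf hR1)
    · have h1 := fun i => rk_le (hB i) (Y := Y' (m + 1)) (R := Rm \ Z') (fun z hz => hRB z (hR1 hz))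
      rw [hY'c (m + 1) (le_refl _)] at h1
      have h2 := h1 true
      have h3 := h1 false
      omega
  have hcR : Rm.card ≤ c * (Rm \ Z').card := by
    have h1 : Rm ∩ Z' ⊆ {t, w} := by
      intro z hz
      rw [Finset.mem_inter] at hz
      rcases hcase z hz.2 with rfl | rfl | h2
      · simp
      · simp
      · exact absurd hz.1 (h.ZR z h2)
    have h2 := Finset.card_le_card h1
    have h3 : ({t, w} : Finset α).card ≤ 2 := Finset.card_le_two
    have h4 := Finset.card_sdiff_add_card_inter Rm Z'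
    have h5 : 4 * (Rm \ Z').card ≤ c * (Rm \ Z').card := Nat.mul_le_mul_right _ hc1
    omega
  have hfin : c ^ (phi M B Y' (m + 2) R₁ + g) ≤ R₁.card := by
    have hcpos : 0 < c := by omega
    set f := phi M B Y' (m + 2) (Rm \ Z') with hf
    set a := phi M B Y' (m + 2) R₁ with ha
    have h1 : c ^ (f + g) ≤ (Rm \ Z').card := by
      have h2 : c * c ^ (f + g) ≤ c * (Rm \ Z').card := by
        calc c * c ^ (f + g) = c ^ (f + g + 1) := by ring
          _ ≤ c ^ (phi M B Y (m + 1) Rm + (g + (2 * m + 3))) :=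
              Nat.pow_le_pow_right hcpos (by omega)
          _ ≤ Rm.card := hsize
          _ ≤ _ := hcR
      exact Nat.le_of_mul_le_mul_left h2 hcpos
    have h3 : c ^ f * c ^ (a + g) ≤ c ^ f * R₁.card := by
      calc c ^ f * c ^ (a + g) = c ^ a * c ^ (f + g) := by ring
        _ ≤ c ^ a * (Rm \ Z').card := Nat.mul_le_mul_left _ h1
        _ ≤ c ^ f * R₁.card := hle₁
    exact Nat.le_of_mul_le_mul_left h3 (Nat.pow_pos hcpos)
  refine ⟨Y', R', σ', Z', hY'B, hY'c, ?_, ?_, ?_, ?_, ?_, ?_, ?_, hinv', ?_, ?_⟩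
  · intro j hj
    by_cases hjm : j = m
    · rw [hjm, hY'm, hY'j m (le_refl _)]
      exact Finset.subset_insert _ _
    · rw [hY'j j (by omega), hY'j (j + 1) (by omega)]
      exact h.Ys j (by omega)
  · intro j hj
    by_cases hjm : j = m
    · rw [hjm, hR'm, hR'j m (le_refl _)]
      exact hR₁.trans hR1
    · rw [hR'j j (by omega), hR'j (j + 1) (by omega)]
      exact h.Rs j (by omega)
  · rw [hR'j 0 (Nat.zero_le _)]
    exact h.R0
  · rw [hR'm]
    exact hrob₁
  · rw [hR'm]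
    exact hfin
  · intro z hz
    rw [hR'm]
    intro hz'
    exact (Finset.mem_sdiff.1 (hR₁ hz')).2 hz
  · rw [hZ'c, h.Zc]
  · intro y hy
    rcases hcase y hy with rfl | rfl | h1
    · omega
    · omega
    · rw [hσZ y h1]
      have := h.lt y h1
      omega
  · intro i
    rw [hY'm]
    exact hbase' i

end Pool.Agent.Lib.MP_2c7063_coL
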